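import Pool.Agent.L3E.RT.DatB

set_option autoImplicit false
set_option maxRecDepth 100000

namespace Pool.Agent.L3E.RT.B

theorem chk : tb.check words ds (expand ss) = true := by decide +kernel

theorem okk : allOk (fun l => Nat.blt l 3) 3 ss = true := by decide +kernel

end Pool.Agent.L3E.RT.B
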