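import Mathlib

set_option autoImplicit false
set_option linter.unusedSimpArgs false

/-!
# L3E, right module tables: kernel checker (helper61)

A right module `γ R` over a ring of characteristic two, letters `a l` with nilpotent products,
basis words `val j`, a table of bit vectors `T l` (entry `j` of `T l` = the bits
`n j, ..., n j + n - 1`) which claims `val j * a l = sum of val i over the bits i of the entry`.
The errors `dl j l` of the table are peeled off one after the other by instances of laws
(vanishing products) and nilpotency shows that they all vanish.
-/

namespace Pool.Agent.L3E.RT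

/-- Entry `j` of a packed table. -/
def tget (n T j : Nat) : Nat := (T >>> (n * j)) % 2 ^ n

/-- Product of the vector `v` and a letter with table `T`. -/
def mulT (n T : Nat) : Nat → Nat → Nat → Nat
  | 0, _, acc => acc
  | f + 1, v, acc =>
    cond (Nat.beq v 0) acc
      (mulT n T f (v ^^^ (1 <<< Nat.log2 v)) (acc ^^^ tget n T (Nat.log2 v)))

/-- The tables of all letters. -/
structure Tb where
  n : Nat
  T : List Nat

/-- Product of a vector and a letter. -/
def Tb.mul (t : Tb) (v l : Nat) : Nat := mulT t.n (t.T.getD l 0) t.n v 0

/-- `v` times a group word (letters `1 + a l`). -/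
def Tb.gmul (t : Tb) (v : Nat) : List Nat → Nat
  | [] => v
  | l :: w => t.gmul (v ^^^ t.mul v l) w

/-- `v` times a list of factors: `true` = group word minus one, `false` = group word. -/
def Tb.fmul (t : Tb) (v : Nat) : List (Bool × List Nat) → Nat
  | [] => v
  | (true, w) :: fs => t.fmul (t.gmul v w ^^^ v) fs
  | (false, w) :: fs => t.fmul (t.gmul v w) fs

/-- Add the mask `v` to the entry `l` of a row. -/
def addAt : Nat → Nat → List Nat → List Nat
  | _, _, [] => []
  | 0, v, r :: rs => (r ^^^ v) :: rs
  | l + 1, v, r :: rs => r :: addAt l v rs

/-- Run the last group word, record the row. -/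
def Tb.last (t : Tb) : Nat → List Nat → List Nat → Nat × List Nat
  | v, [], row => (v, row)
  | v, l :: w, row => t.last (v ^^^ t.mul v l) w (addAt l v row)

/-- An instance of a law: a basis index, factors, and a last factor (group word minus one). -/
structure Ins where
  b : Nat
  fac : List (Bool × List Nat)
  lst : List Nat

/-- Evaluate an instance: check that the final vector vanishes, add the row. -/
def Tb.ins (t : Tb) (i : Ins) (row : List Nat) : Bool × List Nat :=
  let v := t.fmul (1 <<< i.b) i.fac
  let r := t.last v i.lst row
  (Nat.beq (r.1 ^^^ v) 0 && Nat.blt i.b t.n && (i.lst.all fun l => Nat.blt l t.T.length) &&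
    (i.fac.all fun f => f.2.all fun l => Nat.blt l t.T.length), r.2)

/-- Evaluate a list of instances. -/
def Tb.inss (t : Tb) : List Ins → List Nat → Bool × List Nat
  | [], row => (true, row)
  | i :: is, row =>
    let r := t.ins i row
    let s := t.inss is r.2
    (r.1 && s.1, s.2)

/-- Remove the proven bits. -/
def rem : List Nat → List Nat → List Nat
  | r :: rs, p :: ps => (r ^^^ (r &&& p)) :: rem rs ps
  | _, _ => []

/-- The steps: a pair `(j, l)` and the instances which prove it. -/
def Tb.steps (t : Tb) (zero : List Nat) : List ((Nat × Nat) × List Ins) → List Nat → Bool × List Nat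
  | [], P => (true, P)
  | ((j, l), is) :: ss, P =>
    let r := t.inss is zero
    let s := t.steps zero ss (addAt l (1 <<< j) P)
    (r.1 && (rem r.2 P == addAt l (1 <<< j) zero) && Nat.blt j t.n && Nat.blt l t.T.length && s.1,
      s.2)

end Pool.Agent.L3E.RT
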