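import Pool.Agent.L3E.RT.Laws

set_option autoImplicit false
set_option linter.unusedSimpArgs false
set_option linter.unusedSectionVars false

/-!
# L3E, right module tables: evaluation of expressions (helper61)
-/

namespace Pool.Agent.L3E.RT

variable {R : Type} [Ring R]

theorem fv_append (a : Nat → R) (f g : List (Bool × List Nat)) :
    fv a (f ++ g) = fv a f * fv a g := by
  induction f with
  | nil => simp [fv]
  | cons x f ih =>
    obtain ⟨b, w⟩ := x
    cases b <;> simp only [List.cons_append, fv, ih, mul_assoc]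

section
variable (h2 : (2 : R) = 0) (t : Tb) (val a : Nat → R)
  (H : ∀ l < t.T.length, ∀ j < t.n, dl t val a l j = 0)

include h2 H

theorem eval_gw : ∀ (w : List Nat), (∀ l ∈ w, l < t.T.length) → ∀ {v : Nat}, v < 2 ^ t.n →
    sb t.n val v * gw a w = sb t.n val (t.gmul v w) := by
  intro w
  induction w with
  | nil => intro _ v _; simp [gw_nil, Tb.gmul]
  | cons l w ih =>
    intro hw v hv
    have hl : l < t.T.length := hw l (by simp)
    rw [gw_cons, ← mul_assoc, mul_add, mul_one, eval_mul h2 t val a H hv hl, ← sb_xor h2, Tb.gmul]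
    exact ih (fun l' hl' => hw _ (List.mem_cons_of_mem _ hl')) (Nat.xor_lt_two_pow hv (mul_lt t v l))

theorem eval_fv : ∀ (fs : List (Bool × List Nat)), (∀ f ∈ fs, ∀ l ∈ f.2, l < t.T.length) →
    ∀ {v : Nat}, v < 2 ^ t.n → sb t.n val v * fv a fs = sb t.n val (t.fmul v fs) := by
  intro fs
  induction fs with
  | nil => intro _ v _; simp [fv, Tb.fmul]
  | cons f fs ih =>
    intro hf v hv
    obtain ⟨b, w⟩ := f
    have hw : ∀ l ∈ w, l < t.T.length := hf (b, w) (by simp)
    have hf' : ∀ f ∈ fs, ∀ l ∈ f.2, l < t.T.length := fun f hf'' => hf f (List.mem_cons_of_mem _ hf'')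
    have g1 := eval_gw h2 t val a H w hw hv
    cases b
    · rw [fv, ← mul_assoc, Tb.fmul, g1]
      exact ih hf' (gmul_lt t w hv)
    · rw [fv, ← mul_assoc, Tb.fmul, mul_sub, mul_one, g1]
      have : sb t.n val (t.gmul v w) - sb t.n val v = sb t.n val (t.gmul v w ^^^ v) := by
        rw [sb_xor h2, sub_eq_add_neg, ng h2]
      rw [this]
      exact ih hf' (Nat.xor_lt_two_pow (gmul_lt t w hv) hv)

end

/-- A check of letters. -/
def lok (k : Nat) (fs : List (Bool × List Nat)) : Bool :=
  fs.all fun f => f.2.all fun l => Nat.blt l k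

theorem lok_spec {k : Nat} {fs : List (Bool × List Nat)} (h : lok k fs = true) :
    ∀ f ∈ fs, ∀ l ∈ f.2, l < k := by
  simpa only [lok, List.all_eq_true, Nat.blt_eq] using h

/-- The XOR of the values of a list of products. -/
def Tb.sum (t : Tb) : List (List (Bool × List Nat)) → Nat
  | [] => 0
  | f :: fs => t.fmul 1 f ^^^ t.sum fs

/-- Check that a sum of products is zero. -/
def Tb.zero (t : Tb) (fs : List (List (Bool × List Nat))) : Bool :=
  Nat.blt 0 t.n && (fs.all fun f => lok t.T.length f) && Nat.beq (t.sum fs) 0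

section
variable (h2 : (2 : R) = 0) (t : Tb) (val a : Nat → R)
  (H : ∀ l < t.T.length, ∀ j < t.n, dl t val a l j = 0)

include h2 H

theorem sum_spec (h0 : 0 < t.n) : ∀ fs : List (List (Bool × List Nat)),
    (∀ f ∈ fs, lok t.T.length f = true) →
    (fs.map fun f => val 0 * fv a f).sum = sb t.n val (t.sum fs) := by
  intro fs
  induction fs with
  | nil => intro _; simp [Tb.sum, sb_zero]
  | cons f fs ih =>
    intro hf
    have h1 : (1 : Nat) < 2 ^ t.n := Nat.one_lt_two_pow h0.ne'
    have e : sb t.n val 1 = val 0 := by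
      have := sb_one t.n val h0
      simpa using this
    have := eval_fv h2 t val a H f (lok_spec (hf f (by simp))) h1
    rw [List.map_cons, List.sum_cons, ih (fun f' hf' => hf _ (List.mem_cons_of_mem _ hf')),
      Tb.sum, sb_xor h2, ← this, e]

/-- A sum of products vanishes. -/
theorem zero_spec (fs : List (List (Bool × List Nat))) (h : t.zero fs = true) :
    (fs.map fun f => val 0 * fv a f).sum = 0 := by
  simp only [Tb.zero, Bool.and_eq_true, List.all_eq_true, Nat.blt_eq, Nat.beq_eq] at h
  rw [sum_spec h2 t val a H h.1.1 fs h.1.2, h.2, sb_zero]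

end

end Pool.Agent.L3E.RT
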