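import Pool.Agent.L3E.RT.Sound
import Pool.Agent.L3E.CLC

set_option autoImplicit false
set_option linter.unusedSimpArgs false
set_option linter.unusedSectionVars false

/-!
# L3E, right module tables: instances of the laws (helper61)
-/

namespace Pool.Agent.L3E.RT

open scoped commutatorElement
open CLB_ CLC_

/-- The kinds of instances. -/
inductive Kd where
  /-- `A A` -/
  | sq (A : Nat)
  /-- `(A V)²`, `V = B ^ g` -/
  | dd (A B : Nat) (g : List Nat)
  /-- `(E V)²`, `E = [A, C ^ g]`, `V = S ^ h` -/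
  | s1 (A C : Nat) (g : List Nat) (S : Nat) (h : List Nat)
  /-- `(V E)²` -/
  | s2 (A C : Nat) (g : List Nat) (S : Nat) (h : List Nat)

/-- Conjugate words. -/
def cw (B : Nat) (g : List Nat) : List Nat := g.reverse ++ B :: g

/-- Commutator words. -/
def ew (A C : Nat) (g : List Nat) : List Nat := A :: (cw C g ++ A :: cw C g)

/-- The instance. -/
def Kd.ins (b : Nat) : Kd → Ins
  | .sq A => ⟨b, [(true, [A])], [A]⟩
  | .dd A B g => ⟨b, [(true, [A]), (true, cw B g), (true, [A]), (false, g.reverse)], [B]⟩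
  | .s1 A C g S h => ⟨b, [(true, ew A C g), (true, cw S h), (true, ew A C g),
      (false, h.reverse)], [S]⟩
  | .s2 A C g S h => ⟨b, [(true, cw S h), (true, ew A C g), (true, cw S h)], ew A C g⟩

/-- Validity. -/
def Kd.ok (isD : Nat → Bool) (k : Nat) : Kd → Bool
  | .sq A => Nat.blt A k
  | .dd A B g => Nat.blt A k && Nat.blt B k && (isD A || isD B) && g.all fun l => Nat.blt l k
  | .s1 A C g S h => Nat.blt A k && Nat.blt C k && Nat.blt S k && isD A && isD C && isD S &&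
      (g.all fun l => Nat.blt l k) && h.all fun l => Nat.blt l k
  | .s2 A C g S h => Nat.blt A k && Nat.blt C k && Nat.blt S k && isD A && isD C && isD S &&
      (g.all fun l => Nat.blt l k) && h.all fun l => Nat.blt l k

/-- Compact data. -/
def expand (ss : List ((Nat × Nat) × List (Nat × Kd))) : List ((Nat × Nat) × List Ins) :=
  ss.map fun s => (s.1, s.2.map fun i => i.2.ins i.1)

/-- Validity of compact data. -/
def allOk (isD : Nat → Bool) (k : Nat) (ss : List ((Nat × Nat) × List (Nat × Kd))) : Bool :=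
  ss.all fun s => s.2.all fun i => i.2.ok isD k

section
variable {G R : Type} [Group G] [Ring R] {D : Set G} {ρ : G →* R}

/-- The letters. -/
structure Lt (D : Set G) (ρ : G →* R) (xs : Nat → G) (isD : Nat → Bool) (k : Nat) : Prop where
  gd : ∀ l < k, Gd D ρ (xs l)
  mem : ∀ l < k, isD l = true → xs l ∈ D

variable {xs : Nat → G} {isD : Nat → Bool} {k : Nat}

theorem gw_rho (w : List Nat) : gw (fun l => ρ (xs l) - 1) w = ρ ((w.map xs).prod) := by
  induction w with
  | nil => simp [gw]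
  | cons l w ih => rw [gw_cons, ih, List.map_cons, List.prod_cons, map_mul, add_sub_cancel]

theorem gw_append (a : Nat → R) (v w : List Nat) : gw a (v ++ w) = gw a v * gw a w := by
  simp [gw]

theorem gw_rev (h2 : (2 : R) = 0) (hl : Lt D ρ xs isD k) : ∀ w : List Nat, (∀ l ∈ w, l < k) →
    gw (fun l => ρ (xs l) - 1) w.reverse * gw (fun l => ρ (xs l) - 1) w = 1 ∧
    gw (fun l => ρ (xs l) - 1) w * gw (fun l => ρ (xs l) - 1) w.reverse = 1 := by
  intro w
  induction w with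
  | nil => intro _; simp [gw]
  | cons l w ih =>
    intro hw
    obtain ⟨i1, i2⟩ := ih (fun l' hl' => hw _ (List.mem_cons_of_mem _ hl'))
    have hs : ρ (xs l) * ρ (xs l) = 1 := BCS_.rho_sq h2 (hl.gd l (hw l (by simp))).sq
    have hsing : gw (fun l => ρ (xs l) - 1) [l] = ρ (xs l) := by simp [gw]
    rw [List.reverse_cons, gw_append, hsing, gw_cons, add_sub_cancel]
    constructor
    · rw [mul_assoc, ← mul_assoc (ρ (xs l)) (ρ (xs l)), hs, one_mul, i1]
    · rw [mul_assoc, ← mul_assoc (gw _ w) (gw _ w.reverse), i2, one_mul, hs]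

theorem gw_rev' (h2 : (2 : R) = 0) (hl : Lt D ρ xs isD k) (w : List Nat) (hw : ∀ l ∈ w, l < k) :
    gw (fun l => ρ (xs l) - 1) w.reverse = ρ ((w.map xs).prod)⁻¹ := by
  have h1 : ρ ((w.map xs).prod)⁻¹ * ρ ((w.map xs).prod) = 1 := by
    rw [← map_mul, inv_mul_cancel, map_one]
  have h3 := (gw_rev h2 hl w hw).2
  rw [gw_rho w] at h3
  calc gw (fun l => ρ (xs l) - 1) w.reverse
      = ρ ((w.map xs).prod)⁻¹ * ρ ((w.map xs).prod) * gw (fun l => ρ (xs l) - 1) w.reverse := by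
        rw [h1, one_mul]
    _ = ρ ((w.map xs).prod)⁻¹ := by rw [mul_assoc, h3, mul_one]

/-- The conjugate. -/
def cj (xs : Nat → G) (B : Nat) (g : List Nat) : G :=
  ((g.map xs).prod)⁻¹ * xs B * ((g.map xs).prod)⁻¹⁻¹

theorem gw_cw (h2 : (2 : R) = 0) (hl : Lt D ρ xs isD k) (B : Nat) (g : List Nat)
    (hg : ∀ l ∈ g, l < k) : gw (fun l => ρ (xs l) - 1) (cw B g) = ρ (cj xs B g) := by
  rw [cw, gw_append, gw_rev' h2 hl g hg, gw_cons, gw_rho, add_sub_cancel, cj, inv_inv, map_mul,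
    map_mul, mul_assoc]

theorem hat_pass (h2 : (2 : R) = 0) (hl : Lt D ρ xs isD k) (B : Nat) (g : List Nat)
    (hg : ∀ l ∈ g, l < k) : gw (fun l => ρ (xs l) - 1) g.reverse *
      (gw (fun l => ρ (xs l) - 1) [B] - 1) =
      (ρ (cj xs B g) - 1) * gw (fun l => ρ (xs l) - 1) g.reverse := by
  have hsing : gw (fun l => ρ (xs l) - 1) [B] = ρ (xs B) := by simp [gw]
  rw [gw_rev' h2 hl g hg, hsing, cj, inv_inv, map_mul, map_mul, mul_sub, mul_one, sub_mul,
    one_mul, mul_assoc (_ * _) (ρ _) (ρ _), ← map_mul ρ (g.map xs).prod, mul_inv_cancel, map_one,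
    mul_one]

theorem ew_eq (h2 : (2 : R) = 0) (hR : RD D ρ) (hD : DSet D) (hl : Lt D ρ xs isD k) (A C : Nat)
    (g : List Nat) (hg : ∀ l ∈ g, l < k) (hA : xs A ∈ D) (hC : xs C ∈ D) :
    gw (fun l => ρ (xs l) - 1) (ew A C g) = ρ ⁅xs A, cj xs C g⁆ := by
  have hc : cj xs C g ∈ D := hD.conj _ hC _
  rw [ew, gw_cons, gw_append, gw_cons, gw_cw h2 hl C g hg, add_sub_cancel, commutatorElement_def]
  simp only [map_mul, BCS_.rho_inv h2 (gdD hD hR hA).sq, BCS_.rho_inv h2 (gdD hD hR hc).sq,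
    mul_assoc]

/-- All instances hold. -/
theorem valid (hR : RD D ρ) (hD : DSet D) (hS : LawS D) (hl : Lt D ρ xs isD k) (val : Nat → R)
    (b : Nat) (i : Kd) (hi : i.ok isD k = true) :
    IOk val (fun l => ρ (xs l) - 1) (i.ins b) := by
  have h2 := hR.two
  have sing : ∀ B, gw (fun l => ρ (xs l) - 1) [B] - 1 = ρ (xs B) - 1 := fun B => by simp [gw]
  cases i with
  | sq A =>
    simp only [Kd.ok, Nat.blt_eq] at hi
    simp only [IOk, Kd.ins, fv, sing, mul_one, mul_assoc, (hl.gd A hi).sq, mul_zero]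
  | dd A B g =>
    simp only [Kd.ok, Bool.and_eq_true, Nat.blt_eq, Bool.or_eq_true, List.all_eq_true] at hi
    obtain ⟨⟨⟨hA, hB⟩, ht⟩, hg⟩ := hi
    have hz : (ρ (xs A) - 1) * (ρ (cj xs B g) - 1) * (ρ (xs A) - 1) * (ρ (cj xs B g) - 1) = 0 := by
      rcases ht with h | h
      · exact (gd_conj hD.conj (hl.gd B hB) _).pr' _ (hl.mem A hA h)
      · exact (hl.gd A hA).pr _ (hD.conj _ (hl.mem B hB h) _)
    simp only [IOk, Kd.ins, fv, mul_one]
    rw [gw_cw h2 hl B g hg]
    have hp := hat_pass h2 hl B g hg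
    rw [sing] at hp ⊢
    simp only [sing, mul_assoc]
    rw [hp]
    have : ∀ z : R, (ρ (xs A) - 1) * ((ρ (cj xs B g) - 1) * ((ρ (xs A) - 1) *
        ((ρ (cj xs B g) - 1) * z))) = 0 := fun z => by
      simp only [← mul_assoc, hz, zero_mul]
    rw [this, mul_zero]
  | s1 A C g S h =>
    simp only [Kd.ok, Bool.and_eq_true, Nat.blt_eq, List.all_eq_true] at hi
    obtain ⟨⟨⟨⟨⟨⟨⟨hA, hC⟩, hSk⟩, dA⟩, dC⟩, dS⟩, hg⟩, hh⟩ := hi
    have mA := hl.mem A hA dA
    have mC := hD.conj _ (hl.mem C hC dC) ((g.map xs).prod)⁻¹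
    have mS := hD.conj _ (hl.mem S hSk dS) ((h.map xs).prod)⁻¹
    have hz := (gd_of_eg hR (comm_eg hD hS mA mC)).pr _ mS
    simp only [IOk, Kd.ins, fv, mul_one]
    rw [gw_cw h2 hl S h hh, ew_eq h2 hR hD hl A C g hg mA (hl.mem C hC dC)]
    have hp := hat_pass h2 hl S h hh
    simp only [mul_assoc]
    rw [hp]
    have : ∀ z : R, (ρ ⁅xs A, cj xs C g⁆ - 1) * ((ρ (cj xs S h) - 1) *
        ((ρ ⁅xs A, cj xs C g⁆ - 1) * ((ρ (cj xs S h) - 1) * z))) = 0 := fun z => by
      simp only [← mul_assoc]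
      rw [cj, cj, hz, zero_mul]
    rw [this, mul_zero]
  | s2 A C g S h =>
    simp only [Kd.ok, Bool.and_eq_true, Nat.blt_eq, List.all_eq_true] at hi
    obtain ⟨⟨⟨⟨⟨⟨⟨hA, hC⟩, hSk⟩, dA⟩, dC⟩, dS⟩, hg⟩, hh⟩ := hi
    have mA := hl.mem A hA dA
    have mC := hD.conj _ (hl.mem C hC dC) ((g.map xs).prod)⁻¹
    have mS := hD.conj _ (hl.mem S hSk dS) ((h.map xs).prod)⁻¹
    have hz := (gd_of_eg hR (comm_eg hD hS mA mC)).pr' _ mS
    simp only [IOk, Kd.ins, fv, mul_one]
    rw [gw_cw h2 hl S h hh, ew_eq h2 hR hD hl A C g hg mA (hl.mem C hC dC)]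
    have : (ρ (cj xs S h) - 1) * ((ρ ⁅xs A, cj xs C g⁆ - 1) * ((ρ (cj xs S h) - 1) *
        (ρ ⁅xs A, cj xs C g⁆ - 1))) = 0 := by
      simp only [← mul_assoc]
      rw [cj, cj, hz]
    simp only [mul_assoc]
    rw [this, mul_zero]

/-- The exact table. -/
theorem exactG (hR : RD D ρ) (hD : DSet D) (hS : LawS D) (hl : Lt D ρ xs isD k) (t : Tb)
    (γ : R) (words : List (List Nat)) (ds : List (Nat × Nat × Nat))
    (ss : List ((Nat × Nat) × List (Nat × Kd)))
    (hc : t.check words ds (expand ss) = true) (hi : allOk isD k ss = true) :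
    ∀ l < t.T.length, ∀ j < t.n,
      dl t (vals γ (fun l => ρ (xs l) - 1) words) (fun l => ρ (xs l) - 1) l j = 0 := by
  obtain ⟨N, hN⟩ := hR.nil
  refine exact hR.two t γ _ words ds (expand ss) hc ?_ N ?_
  · intro s hs i hi'
    simp only [expand, List.mem_map] at hs
    obtain ⟨s', hs', rfl⟩ := hs
    simp only [List.mem_map] at hi'
    obtain ⟨i', hi'', rfl⟩ := hi'
    simp only [allOk, List.all_eq_true] at hi
    exact valid hR hD hS hl _ _ _ (hi s' hs' i' hi'')
  · intro w hw _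
    have := hN (w.map xs) (by rw [List.length_map, hw])
    rw [List.map_map] at this
    exact this

end

end Pool.Agent.L3E.RT
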