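import Pool.Agent.L3E.RT.Core

set_option autoImplicit false
set_option linter.unusedSimpArgs false
set_option linter.unusedSectionVars false

/-!
# L3E, right module tables: soundness (helper61)
-/

namespace Pool.Agent.L3E.RT

variable {R : Type} [Ring R]

/-- Sum over the bits of a vector. -/
def sb (n : Nat) (f : Nat → R) (v : Nat) : R :=
  ∑ j ∈ Finset.range n, if v.testBit j then f j else 0

theorem sb_zero (n : Nat) (f : Nat → R) : sb n f 0 = 0 := by
  simp [sb]

theorem tw (h2 : (2 : R) = 0) (a : R) : a + a = 0 := by rw [← two_mul, h2, zero_mul]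

theorem ng (h2 : (2 : R) = 0) (a : R) : -a = a := neg_eq_of_add_eq_zero_left (tw h2 a)

theorem sb_xor (h2 : (2 : R) = 0) (n : Nat) (f : Nat → R) (v w : Nat) :
    sb n f (v ^^^ w) = sb n f v + sb n f w := by
  unfold sb
  rw [← Finset.sum_add_distrib]
  refine Finset.sum_congr rfl fun j _ => ?_
  rw [Nat.testBit_xor]
  cases v.testBit j <;> cases w.testBit j <;> simp [tw h2]

theorem sb_one (n : Nat) (f : Nat → R) {j : Nat} (hj : j < n) : sb n f (1 <<< j) = f j := by
  unfold sb
  rw [Finset.sum_eq_single j]
  · simp [Nat.testBit_shiftLeft]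
  · intro b _ hb
    have : (1 <<< j).testBit b = false := by
      rw [Nat.one_shiftLeft, Nat.testBit_two_pow]
      simpa using fun h => hb h.symm
    simp [this]
  · intro h
    exact absurd (Finset.mem_range.2 hj) h

theorem sb_mem (n : Nat) (f : Nat → R) (v : Nat) (A : AddSubgroup R)
    (h : ∀ j < n, v.testBit j = true → f j ∈ A) : sb n f v ∈ A := by
  unfold sb
  refine A.sum_mem fun j hj => ?_
  by_cases hb : v.testBit j = true
  · rw [if_pos hb]
    exact h j (Finset.mem_range.1 hj) hb
  · rw [if_neg hb]
    exact A.zero_mem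

theorem sb_congr (n : Nat) (f g : Nat → R) (v : Nat) (h : ∀ j < n, f j = g j) :
    sb n f v = sb n g v := by
  unfold sb
  refine Finset.sum_congr rfl fun j hj => ?_
  rw [h j (Finset.mem_range.1 hj)]

theorem sb_add (n : Nat) (f g : Nat → R) (v : Nat) :
    sb n (fun j => f j + g j) v = sb n f v + sb n g v := by
  unfold sb
  rw [← Finset.sum_add_distrib]
  refine Finset.sum_congr rfl fun j _ => ?_
  split_ifs <;> simp

theorem sb_mul (n : Nat) (f : Nat → R) (v : Nat) (x : R) :
    sb n f v * x = sb n (fun j => f j * x) v := by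
  unfold sb
  rw [Finset.sum_mul]
  refine Finset.sum_congr rfl fun j _ => ?_
  split_ifs <;> simp

theorem tget_lt (n T j : Nat) : tget n T j < 2 ^ n := Nat.mod_lt _ (by positivity)

theorem top_lt {f v : Nat} (hv : v < 2 ^ (f + 1)) (h0 : v ≠ 0) :
    Nat.log2 v ≤ f ∧ v ^^^ (1 <<< Nat.log2 v) < 2 ^ f := by
  have hl : Nat.log2 v < f + 1 := (Nat.log2_lt h0).2 hv
  have hle : Nat.log2 v ≤ f := Nat.lt_succ_iff.1 hl
  refine ⟨hle, ?_⟩
  have h1 : v < 2 ^ (Nat.log2 v + 1) := (Nat.log2_lt h0).1 (Nat.lt_succ_self _)
  have h2 : 2 ^ Nat.log2 v ≤ v := Nat.log2_self_le h0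
  have h3 : v ^^^ (1 <<< Nat.log2 v) < 2 ^ Nat.log2 v := by
    refine Nat.lt_pow_two_of_testBit _ fun i hi => ?_
    rw [Nat.testBit_xor, Nat.one_shiftLeft, Nat.testBit_two_pow]
    rcases Nat.lt_or_ge (Nat.log2 v) i with hlt | hge
    · have : v.testBit i = false := Nat.testBit_lt_two_pow (lt_of_lt_of_le h1
        (Nat.pow_le_pow_right (by norm_num) hlt))
      simp [this, hlt.ne]
    · have hi' : i = Nat.log2 v := le_antisymm hge hi
      subst hi'
      have : v.testBit (Nat.log2 v) = true := by
        rw [Nat.testBit_eq_decide_div_mod_eq, decide_eq_true_eq]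
        have hd : v / 2 ^ Nat.log2 v = 1 := by
          apply Nat.div_eq_of_lt_le
          · simpa using h2
          · rw [pow_succ] at h1
            omega
        rw [hd]
      simp [this]
  exact lt_of_lt_of_le h3 (Nat.pow_le_pow_right (by norm_num) hle)

theorem mulT_spec (h2 : (2 : R) = 0) (n T : Nat) (val : Nat → R) : ∀ (f v acc : Nat), f ≤ n →
    v < 2 ^ f → sb n val (mulT n T f v acc) =
      sb n val acc + sb n (fun j => sb n val (tget n T j)) v := by
  intro f
  induction f with
  | zero =>
    intro v acc _ hv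
    have : v = 0 := by simpa using hv
    subst this
    simp [mulT, sb_zero]
  | succ f ih =>
    intro v acc hf hv
    rw [mulT]
    by_cases h0 : v = 0
    · subst h0
      simp [sb_zero]
    · have hb : Nat.beq v 0 = false := by
        cases v with
        | zero => exact absurd rfl h0
        | succ v => rfl
      rw [hb, cond_false]
      obtain ⟨hl, hlt⟩ := top_lt hv h0
      rw [ih _ _ (by omega) hlt, sb_xor h2, sb_xor h2, sb_one _ _ (by omega : Nat.log2 v < n)]
      have := tw h2 (sb n val (tget n T (Nat.log2 v)))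
      calc _ = sb n val acc + sb n (fun j => sb n val (tget n T j)) v +
            (sb n val (tget n T (Nat.log2 v)) + sb n val (tget n T (Nat.log2 v))) := by abel
        _ = _ := by rw [this, add_zero]

theorem mulT_lt (n T : Nat) : ∀ (f v acc : Nat), acc < 2 ^ n → mulT n T f v acc < 2 ^ n := by
  intro f
  induction f with
  | zero => intro v acc h; exact h
  | succ f ih =>
    intro v acc h
    rw [mulT]
    cases Nat.beq v 0
    · exact ih _ _ (Nat.xor_lt_two_pow h (tget_lt _ _ _))
    · exact h

/-- The submodules `K m`. -/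
def KK (k : Nat) (a : Nat → R) (m : Nat) : AddSubgroup R :=
  AddSubgroup.closure {x | ∃ r : R, ∃ w : List Nat, w.length = m ∧ (∀ l ∈ w, l < k) ∧
    x = r * (w.map a).prod}

/-- The value of a group word. -/
def gw (a : Nat → R) (w : List Nat) : R := (w.map fun l => 1 + a l).prod

/-- The value of a list of factors. -/
def fv (a : Nat → R) : List (Bool × List Nat) → R
  | [] => 1
  | (true, w) :: fs => (gw a w - 1) * fv a fs
  | (false, w) :: fs => gw a w * fv a fs

section
variable {k : Nat} {a : Nat → R} {m : Nat}

theorem KK_zero (x : R) : x ∈ KK k a 0 :=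
  AddSubgroup.subset_closure ⟨x, [], rfl, by simp, by simp⟩

theorem KK_mul {x : R} (hx : x ∈ KK k a m) {l : Nat} (hl : l < k) : x * a l ∈ KK k a (m + 1) := by
  unfold KK at hx
  induction hx using AddSubgroup.closure_induction with
  | mem x hx =>
    obtain ⟨r, w, hw, hk, rfl⟩ := hx
    refine AddSubgroup.subset_closure ⟨r, w ++ [l], by simp [hw], ?_, by simp [mul_assoc]⟩
    intro l' hl'
    rcases List.mem_append.1 hl' with h | h
    · exact hk _ h
    · rw [List.mem_singleton] at h
      rwa [h]
  | zero => rw [zero_mul]; exact zero_mem _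
  | add x y _ _ h1 h2 => rw [add_mul]; exact add_mem h1 h2
  | neg x _ h1 => rw [neg_mul]; exact neg_mem h1

theorem KK_succ {x : R} (hx : x ∈ KK k a (m + 1)) : x ∈ KK k a m := by
  unfold KK at hx
  induction hx using AddSubgroup.closure_induction with
  | mem x hx =>
    obtain ⟨r, w, hw, hk, rfl⟩ := hx
    cases w with
    | nil => simp at hw
    | cons l w =>
      refine AddSubgroup.subset_closure ⟨r * a l, w, by simpa using hw,
        fun l' hl' => hk _ (List.mem_cons_of_mem _ hl'), by simp [mul_assoc]⟩
  | zero => exact zero_mem _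
  | add x y _ _ h1 h2 => exact add_mem h1 h2
  | neg x _ h1 => exact neg_mem h1

theorem KK_nil {N : Nat} (hN : ∀ w : List Nat, w.length = N → (∀ l ∈ w, l < k) →
    (w.map a).prod = 0) {x : R} (hx : x ∈ KK k a N) : x = 0 := by
  unfold KK at hx
  induction hx using AddSubgroup.closure_induction with
  | mem x hx =>
    obtain ⟨r, w, hw, hk, rfl⟩ := hx
    rw [hN w hw hk, mul_zero]
  | zero => rfl
  | add x y _ _ h1 h2 => rw [h1, h2, add_zero]
  | neg x _ h1 => rw [h1, neg_zero]

theorem gw_nil : gw a [] = 1 := by simp [gw]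

theorem gw_cons (l : Nat) (w : List Nat) : gw a (l :: w) = (1 + a l) * gw a w := by simp [gw]

theorem KK_gw {w : List Nat} (hw : ∀ l ∈ w, l < k) : ∀ {x : R}, x ∈ KK k a m →
    x * gw a w ∈ KK k a m ∧ x * gw a w - x ∈ KK k a (m + 1) := by
  induction w with
  | nil => intro x hx; simp [gw_nil, hx, zero_mem]
  | cons l w ih =>
    intro x hx
    have hl := KK_mul hx (hw l (by simp))
    have h1 : x * (1 + a l) ∈ KK k a m := by
      rw [mul_add, mul_one]
      exact add_mem hx (KK_succ hl)
    obtain ⟨h3, h4⟩ := ih (fun l' hl' => hw _ (List.mem_cons_of_mem _ hl')) h1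
    rw [gw_cons, ← mul_assoc]
    refine ⟨h3, ?_⟩
    have e : x * (1 + a l) * gw a w - x = (x * (1 + a l) * gw a w - x * (1 + a l)) + x * a l := by
      rw [mul_add, mul_one]; abel
    rw [e]
    exact add_mem h4 hl

end

section
variable (h2 : (2 : R) = 0) (t : Tb) (val a : Nat → R) (m : Nat)

/-- The errors of the table. -/
def dl (t : Tb) (val a : Nat → R) (l j : Nat) : R :=
  val j * a l - sb t.n val (tget t.n (t.T.getD l 0) j)

include h2 in
theorem mul_spec {v : Nat} (hv : v < 2 ^ t.n) (l : Nat) :
    sb t.n val v * a l = sb t.n val (t.mul v l) + sb t.n (dl t val a l) v := by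
  rw [Tb.mul, mulT_spec h2 _ _ _ _ _ _ le_rfl hv, sb_zero, zero_add, ← sb_add, sb_mul]
  refine sb_congr _ _ _ _ fun j _ => ?_
  rw [dl]; abel

theorem mul_lt (v l : Nat) : t.mul v l < 2 ^ t.n := mulT_lt _ _ _ _ _ (by positivity)

theorem gmul_lt : ∀ (w : List Nat) {v : Nat}, v < 2 ^ t.n → t.gmul v w < 2 ^ t.n := by
  intro w
  induction w with
  | nil => intro v hv; exact hv
  | cons l w ih => intro v hv; exact ih (Nat.xor_lt_two_pow hv (mul_lt t v l))

theorem fmul_lt : ∀ (fs : List (Bool × List Nat)) {v : Nat}, v < 2 ^ t.n →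
    t.fmul v fs < 2 ^ t.n := by
  intro fs
  induction fs with
  | nil => intro v hv; exact hv
  | cons f fs ih =>
    intro v hv
    obtain ⟨b, w⟩ := f
    cases b
    · exact ih (gmul_lt t w hv)
    · exact ih (Nat.xor_lt_two_pow (gmul_lt t w hv) hv)

variable (H : ∀ l < t.T.length, ∀ j < t.n, dl t val a l j ∈ KK t.T.length a m)

include h2 H in
theorem gmul_spec : ∀ (w : List Nat), (∀ l ∈ w, l < t.T.length) → ∀ {v : Nat}, v < 2 ^ t.n →
    sb t.n val v * gw a w - sb t.n val (t.gmul v w) ∈ KK t.T.length a m := by
  intro w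
  induction w with
  | nil => intro _ v _; simp [gw_nil, Tb.gmul, zero_mem]
  | cons l w ih =>
    intro hw v hv
    have hl : l < t.T.length := hw l (by simp)
    have hw' : ∀ l ∈ w, l < t.T.length := fun l' hl' => hw _ (List.mem_cons_of_mem _ hl')
    rw [gw_cons, ← mul_assoc, mul_add, mul_one, mul_spec h2 t val a hv l, ← add_assoc,
      ← sb_xor h2, add_mul, Tb.gmul]
    have h1 := ih hw' (Nat.xor_lt_two_pow hv (mul_lt t v l))
    have h3 : sb t.n (dl t val a l) v ∈ KK t.T.length a m := sb_mem _ _ _ _ fun j hj _ => H l hl j hj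
    have h4 := (KK_gw hw' h3).1
    have e : ∀ p q r : R, p + q - r = (p - r) + q := fun p q r => by abel
    rw [e]
    exact add_mem h1 h4

include h2 H in
theorem fmul_spec : ∀ (fs : List (Bool × List Nat)), (∀ f ∈ fs, ∀ l ∈ f.2, l < t.T.length) →
    ∀ {v : Nat} {x : R}, v < 2 ^ t.n → x - sb t.n val v ∈ KK t.T.length a m →
    x * fv a fs - sb t.n val (t.fmul v fs) ∈ KK t.T.length a m := by
  intro fs
  induction fs with
  | nil => intro _ v x _ hx; simpa [fv, Tb.fmul] using hx
  | cons f fs ih =>
    intro hf v x hv hx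
    obtain ⟨b, w⟩ := f
    have hw : ∀ l ∈ w, l < t.T.length := hf (b, w) (by simp)
    have hf' : ∀ f ∈ fs, ∀ l ∈ f.2, l < t.T.length := fun f hf'' => hf f (List.mem_cons_of_mem _ hf'')
    have g1 := gmul_spec h2 t val a m H w hw hv
    have g2 := (KK_gw hw hx).1
    have g3 : x * gw a w - sb t.n val (t.gmul v w) ∈ KK t.T.length a m := by
      have e : x * gw a w - sb t.n val (t.gmul v w) = (x - sb t.n val v) * gw a w +
          (sb t.n val v * gw a w - sb t.n val (t.gmul v w)) := by
        rw [sub_mul]; abel
      rw [e]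
      exact add_mem g2 g1
    cases b
    · rw [fv, ← mul_assoc, Tb.fmul]
      exact ih hf' (gmul_lt t w hv) g3
    · rw [fv, ← mul_assoc, Tb.fmul]
      refine ih hf' (Nat.xor_lt_two_pow (gmul_lt t w hv) hv) ?_
      rw [sb_xor h2, mul_sub, mul_one]
      have e : x * gw a w - x - (sb t.n val (t.gmul v w) + sb t.n val v) =
          (x * gw a w - sb t.n val (t.gmul v w)) - (x - sb t.n val v) - (sb t.n val v +
            sb t.n val v) := by abel
      rw [e, tw h2, sub_zero]
      exact sub_mem g3 hx

/-- The sum of the errors of a row. -/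
def DD (t : Tb) (val a : Nat → R) : Nat → List Nat → R
  | _, [] => 0
  | i, r :: rs => sb t.n (dl t val a i) r + DD t val a (i + 1) rs

include h2 in
theorem DD_addAt : ∀ (row : List Nat) (l i v : Nat), l < row.length →
    DD t val a i (addAt l v row) = DD t val a i row + sb t.n (dl t val a (i + l)) v := by
  intro row
  induction row with
  | nil => intro l i v hl; simp at hl
  | cons r rs ih =>
    intro l i v hl
    cases l with
    | zero => simp only [addAt, DD, sb_xor h2, Nat.add_zero]; abel
    | succ l =>
      have : l < rs.length := by simpa using hl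
      simp only [addAt, DD]
      rw [ih l (i + 1) v this, show i + 1 + l = i + (l + 1) by omega]
      abel

theorem addAt_length : ∀ (row : List Nat) (l v : Nat), (addAt l v row).length = row.length := by
  intro row
  induction row with
  | nil => intro l v; cases l <;> rfl
  | cons r rs ih =>
    intro l v
    cases l with
    | zero => rfl
    | succ l => simp [addAt, ih]

theorem last_length : ∀ (w : List Nat) (v : Nat) (row : List Nat),
    (t.last v w row).2.length = row.length := by
  intro w
  induction w with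
  | nil => intro v row; rfl
  | cons l w ih => intro v row; rw [Tb.last, ih, addAt_length]

include h2 H in
theorem last_spec : ∀ (w : List Nat), (∀ l ∈ w, l < t.T.length) → ∀ {v : Nat} {row : List Nat},
    v < 2 ^ t.n → row.length = t.T.length →
    sb t.n val v * gw a w - (sb t.n val (t.last v w row).1 +
      (DD t val a 0 (t.last v w row).2 - DD t val a 0 row)) ∈ KK t.T.length a (m + 1) := by
  intro w
  induction w with
  | nil => intro _ v row _ _; simp [gw_nil, Tb.last, zero_mem]
  | cons l w ih =>
    intro hw v row hv hr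
    have hl : l < t.T.length := hw l (by simp)
    have hw' : ∀ l ∈ w, l < t.T.length := fun l' hl' => hw _ (List.mem_cons_of_mem _ hl')
    have h1 := ih hw' (row := addAt l v row) (Nat.xor_lt_two_pow hv (mul_lt t v l))
      (by rw [addAt_length, hr])
    have h3 : sb t.n (dl t val a l) v ∈ KK t.T.length a m := sb_mem _ _ _ _ fun j hj _ => H l hl j hj
    have h4 := (KK_gw hw' h3).2
    rw [DD_addAt h2 t val a row l 0 v (by rw [hr]; exact hl), Nat.zero_add] at h1
    rw [gw_cons, ← mul_assoc, mul_add, mul_one, mul_spec h2 t val a hv l, ← add_assoc,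
      ← sb_xor h2, add_mul, Tb.last]
    have e : ∀ p q r s u z : R, p + q - (r + (s - u)) = (p - (r + (s - (u + z)))) + (q - z) := by
      intros; abel
    rw [e _ _ _ _ _ (sb t.n (dl t val a l) v)]
    exact add_mem h1 h4

/-- An instance holds. -/
def IOk (val a : Nat → R) (i : Ins) : Prop :=
  val i.b * fv a i.fac * (gw a i.lst - 1) = 0

include h2 H in
theorem ins_spec (i : Ins) (hi : IOk val a i) {row : List Nat} (hr : row.length = t.T.length)
    (hc : (t.ins i row).1 = true) :
    DD t val a 0 (t.ins i row).2 - DD t val a 0 row ∈ KK t.T.length a (m + 1) ∧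
      (t.ins i row).2.length = t.T.length := by
  simp only [Tb.ins, Bool.and_eq_true, List.all_eq_true, Nat.blt_eq, Nat.beq_eq] at hc
  obtain ⟨⟨⟨hz, hb⟩, hl⟩, hf⟩ := hc
  have hv : (1 <<< i.b : Nat) < 2 ^ t.n := by
    rw [Nat.one_shiftLeft]
    exact Nat.pow_lt_pow_right (by norm_num) hb
  have g1 := fmul_spec h2 t val a m H i.fac hf (v := 1 <<< i.b) (x := val i.b) hv
    (by rw [sb_one _ _ hb, sub_self]; exact zero_mem _)
  set v := t.fmul (1 <<< i.b) i.fac with hvd
  have hvlt : v < 2 ^ t.n := fmul_lt t i.fac hv
  have g2 := (KK_gw hl g1).2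
  have g3 := last_spec h2 t val a m H i.lst hl (row := row) hvlt hr
  refine ⟨?_, by rw [Tb.ins]; exact (last_length t i.lst v row).trans hr⟩
  rw [IOk, mul_sub, mul_one] at hi
  have hx : sb t.n val (t.last v i.lst row).1 = sb t.n val v := by
    have h0 := sb_xor h2 t.n val (t.last v i.lst row).1 v
    rw [hz, sb_zero] at h0
    have := eq_neg_of_add_eq_zero_left h0.symm
    rw [this, ng h2]
  rw [hx] at g3
  have e : DD t val a 0 (t.last v i.lst row).2 - DD t val a 0 row =
      -(sb t.n val v * gw a i.lst - (sb t.n val v +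
      (DD t val a 0 (t.last v i.lst row).2 - DD t val a 0 row))) -
      (((val i.b * fv a i.fac - sb t.n val v) * gw a i.lst - (val i.b * fv a i.fac - sb t.n val v)))
      + (val i.b * fv a i.fac * gw a i.lst - val i.b * fv a i.fac) := by
    rw [sub_mul]; abel
  show DD t val a 0 (t.last v i.lst row).2 - DD t val a 0 row ∈ _
  rw [e, hi, add_zero]
  exact sub_mem (neg_mem g3) g2

include h2 H in
theorem inss_spec : ∀ (is : List Ins), (∀ i ∈ is, IOk val a i) → ∀ {row : List Nat},
    row.length = t.T.length → (t.inss is row).1 = true →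
    DD t val a 0 (t.inss is row).2 - DD t val a 0 row ∈ KK t.T.length a (m + 1) ∧
      (t.inss is row).2.length = t.T.length := by
  intro is
  induction is with
  | nil => intro _ row hr _; simp [Tb.inss, hr, zero_mem]
  | cons i is ih =>
    intro hi row hr hc
    rw [Tb.inss] at hc ⊢
    simp only [Bool.and_eq_true] at hc
    obtain ⟨h1, h3⟩ := hc
    obtain ⟨g1, g2⟩ := ins_spec h2 t val a m H i (hi i (by simp)) hr h1
    obtain ⟨g3, g4⟩ := ih (fun j hj => hi j (List.mem_cons_of_mem _ hj)) g2 h3
    refine ⟨?_, g4⟩
    have := add_mem g3 g1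
    rwa [sub_add_sub_cancel] at this

theorem DD_replicate : ∀ (k i : Nat), DD t val a i (List.replicate k 0) = 0 := by
  intro k
  induction k with
  | zero => intro i; rfl
  | succ k ih => intro i; rw [List.replicate_succ, DD, ih, sb_zero, add_zero]

/-- The proven bits. -/
def Good (P : List Nat) : Prop :=
  ∀ l < t.T.length, ∀ j < t.n, (P.getD l 0).testBit j = true → dl t val a l j ∈
    KK t.T.length a (m + 1)

include h2 in
theorem rem_spec : ∀ (row P : List Nat) (i : Nat), row.length = P.length →
    (∀ l < P.length, ∀ j < t.n, (P.getD l 0).testBit j = true →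
      dl t val a (i + l) j ∈ KK t.T.length a (m + 1)) →
    DD t val a i row - DD t val a i (rem row P) ∈ KK t.T.length a (m + 1) := by
  intro row
  induction row with
  | nil => intro P i _ _; simp [DD, rem, zero_mem]
  | cons r rs ih =>
    intro P i hl hP
    cases P with
    | nil => simp at hl
    | cons p ps =>
      rw [rem, DD, DD, sb_xor h2]
      have h1 := ih ps (i + 1) (by simpa using hl) (fun l hl' j hj hb => by
        have := hP (l + 1) (by simpa using hl') j hj (by simpa using hb)
        rwa [show i + (l + 1) = i + 1 + l by omega] at this)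
      have h3 : sb t.n (dl t val a i) (r &&& p) ∈ KK t.T.length a (m + 1) := by
        refine sb_mem _ _ _ _ fun j hj hb => ?_
        rw [Nat.testBit_and, Bool.and_eq_true] at hb
        exact hP 0 (by simp) j hj (by simpa using hb.2)
      have e : sb t.n (dl t val a i) r + DD t val a (i + 1) rs -
          (sb t.n (dl t val a i) r + sb t.n (dl t val a i) (r &&& p) +
            DD t val a (i + 1) (rem rs ps)) =
          (DD t val a (i + 1) rs - DD t val a (i + 1) (rem rs ps)) -
            sb t.n (dl t val a i) (r &&& p) := by abel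
      rw [e]
      exact sub_mem h1 h3

theorem getD_addAt : ∀ (P : List Nat) (l v l' : Nat), l < P.length →
    (addAt l v P).getD l' 0 = if l' = l then (P.getD l 0) ^^^ v else P.getD l' 0 := by
  intro P
  induction P with
  | nil => intro l v l' hl; simp at hl
  | cons p ps ih =>
    intro l v l' hl
    cases l with
    | zero => cases l' <;> simp [addAt]
    | succ l =>
      cases l' with
      | zero => simp [addAt]
      | succ l' =>
        have := ih l v l' (by simpa using hl)
        simp only [addAt, List.getD_cons_succ, this]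
        by_cases h : l' = l
        · simp [h]
        · simp [h]

theorem good_addAt {P : List Nat} (hP : Good t val a m P) (hl : P.length = t.T.length)
    {l j : Nat} (hlt : l < t.T.length) (hd : dl t val a l j ∈ KK t.T.length a (m + 1)) :
    Good t val a m (addAt l (1 <<< j) P) := by
  intro l' hl' j' hj' hb
  rw [getD_addAt P l _ l' (by rw [hl]; exact hlt)] at hb
  by_cases h : l' = l
  · subst h
    rw [if_pos rfl, Nat.testBit_xor, Nat.one_shiftLeft, Nat.testBit_two_pow] at hb
    by_cases hjj : j = j'
    · subst hjj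
      exact hd
    · simp only [hjj, decide_false, Bool.xor_false] at hb
      exact hP l' hl' j' hj' hb
  · rw [if_neg h] at hb
    exact hP l' hl' j' hj' hb

include h2 H in
theorem steps_spec : ∀ (ss : List ((Nat × Nat) × List Ins)),
    (∀ s ∈ ss, ∀ i ∈ s.2, IOk val a i) → ∀ {P : List Nat}, P.length = t.T.length →
    Good t val a m P → (t.steps (List.replicate t.T.length 0) ss P).1 = true →
    Good t val a m (t.steps (List.replicate t.T.length 0) ss P).2 := by
  intro ss
  induction ss with
  | nil => intro _ P _ hP _; exact hP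
  | cons s ss ih =>
    intro hs P hl hP hc
    obtain ⟨⟨j, l⟩, is⟩ := s
    rw [Tb.steps] at hc ⊢
    simp only [Bool.and_eq_true, beq_iff_eq, Nat.blt_eq] at hc
    obtain ⟨⟨⟨⟨h1, h3⟩, h4⟩, h5⟩, h6⟩ := hc
    have hz : (List.replicate t.T.length 0 : List Nat).length = t.T.length := by simp
    obtain ⟨g1, g2⟩ := inss_spec h2 t val a m H is (hs ((j, l), is) (by simp)) hz h1
    rw [DD_replicate, sub_zero] at g1
    have g3 := rem_spec h2 t val a m _ P 0 (g2.trans hl.symm) (by
      intro l' hl' j' hj' hb
      rw [Nat.zero_add]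
      exact hP l' (hl ▸ hl') j' hj' hb)
    rw [h3, DD_addAt h2 t val a _ l 0 _ (by rw [hz]; exact h5), DD_replicate, zero_add,
      Nat.zero_add, sb_one _ _ h4] at g3
    have hd : dl t val a l j ∈ KK t.T.length a (m + 1) := by
      have := sub_mem g1 g3
      rwa [sub_sub_cancel] at this
    exact ih (fun s hs' => hs s (List.mem_cons_of_mem _ hs')) (by rw [addAt_length, hl])
      (good_addAt t val a m hP hl h5 hd) h6

end

/-- All bits are set. -/
def full (n : Nat) : List Nat → Bool
  | [] => true
  | p :: ps => Nat.beq p (2 ^ n - 1) && full n ps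

theorem full_spec (n : Nat) : ∀ (P : List Nat), full n P = true → ∀ l < P.length, ∀ j < n,
    (P.getD l 0).testBit j = true := by
  intro P
  induction P with
  | nil => intro _ l hl; simp at hl
  | cons p ps ih =>
    intro h l hl j hj
    simp only [full, Bool.and_eq_true, Nat.beq_eq] at h
    cases l with
    | zero =>
      simp only [List.getD_cons_zero, h.1, Nat.testBit_two_pow_sub_one, decide_eq_true_eq]
      exact hj
    | succ l => simpa using ih h.2 l (by simpa using hl) j hj

theorem steps_length (t : Tb) (zero : List Nat) : ∀ (ss : List ((Nat × Nat) × List Ins))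
    (P : List Nat), (t.steps zero ss P).2.length = P.length := by
  intro ss
  induction ss with
  | nil => intro P; rfl
  | cons s ss ih =>
    intro P
    obtain ⟨⟨j, l⟩, is⟩ := s
    rw [Tb.steps, ih, addAt_length]

/-- The definition pairs `(j, l, i)`: `val i = val j * a l`. -/
def Pdef : List (Nat × Nat × Nat) → List Nat → List Nat
  | [], P => P
  | (j, l, _) :: ds, P => addAt l (1 <<< j) (Pdef ds P)

/-- Check of the definition pairs. -/
def Tb.defs (t : Tb) (words : List (List Nat)) : List (Nat × Nat × Nat) → Bool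
  | [] => true
  | (j, l, i) :: ds =>
    (words.getD i [] == words.getD j [] ++ [l]) && Nat.beq (tget t.n (t.T.getD l 0) j) (1 <<< i) &&
      Nat.blt i t.n && Nat.blt l t.T.length && t.defs words ds

/-- The values of the basis words. -/
def vals (γ : R) (a : Nat → R) (words : List (List Nat)) (j : Nat) : R :=
  γ * ((words.getD j []).map a).prod

theorem defs_spec (t : Tb) (γ : R) (a : Nat → R) (words : List (List Nat)) (m : Nat) :
    ∀ ds : List (Nat × Nat × Nat), t.defs words ds = true →
    ∀ P : List Nat, P.length = t.T.length → Good t (vals γ a words) a m P →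
    Good t (vals γ a words) a m (Pdef ds P) ∧ (Pdef ds P).length = t.T.length := by
  intro ds
  induction ds with
  | nil => intro _ P hl hP; exact ⟨hP, hl⟩
  | cons d ds ih =>
    intro h P hl hP
    obtain ⟨j, l, i⟩ := d
    rw [Tb.defs] at h
    simp only [Bool.and_eq_true, beq_iff_eq, Nat.blt_eq, Nat.beq_eq] at h
    obtain ⟨⟨⟨⟨h1, h2⟩, h3⟩, h4⟩, h5⟩ := h
    obtain ⟨g1, g2⟩ := ih h5 P hl hP
    refine ⟨good_addAt t _ a m g1 g2 h4 ?_, by rw [Pdef, addAt_length, g2]⟩
    have : dl t (vals γ a words) a l j = 0 := by
      rw [dl, h2, sb_one _ _ h3, vals, vals, h1]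
      simp [mul_assoc]
    rw [this]
    exact zero_mem _

/-- The whole check. -/
def Tb.check (t : Tb) (words : List (List Nat)) (ds : List (Nat × Nat × Nat))
    (ss : List ((Nat × Nat) × List Ins)) : Bool :=
  t.defs words ds &&
    (t.steps (List.replicate t.T.length 0) ss (Pdef ds (List.replicate t.T.length 0))).1 &&
    full t.n (t.steps (List.replicate t.T.length 0) ss
      (Pdef ds (List.replicate t.T.length 0))).2

/-- The table is exact. -/
theorem exact (h2 : (2 : R) = 0) (t : Tb) (γ : R) (a : Nat → R) (words : List (List Nat))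
    (ds : List (Nat × Nat × Nat)) (ss : List ((Nat × Nat) × List Ins))
    (hc : t.check words ds ss = true) (hi : ∀ s ∈ ss, ∀ i ∈ s.2, IOk (vals γ a words) a i)
    (N : Nat) (hN : ∀ w : List Nat, w.length = N → (∀ l ∈ w, l < t.T.length) →
      (w.map a).prod = 0) :
    ∀ l < t.T.length, ∀ j < t.n, dl t (vals γ a words) a l j = 0 := by
  simp only [Tb.check, Bool.and_eq_true] at hc
  obtain ⟨⟨hd, hs⟩, hf⟩ := hc
  have hz : (List.replicate t.T.length 0 : List Nat).length = t.T.length := by simp
  have key : ∀ m, ∀ l < t.T.length, ∀ j < t.n, dl t (vals γ a words) a l j ∈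
      KK t.T.length a m := by
    intro m
    induction m with
    | zero => intro l _ j _; exact KK_zero _
    | succ m ih =>
      obtain ⟨g1, g2⟩ := defs_spec t γ a words m ds hd (List.replicate t.T.length 0) hz (by
        intro l hl j _ hb
        have : (List.replicate t.T.length 0 : List Nat).getD l 0 = 0 := by
          simp [List.getD_eq_getElem?_getD, List.getElem?_replicate, hl]
        rw [this] at hb
        simp at hb)
      have g3 := steps_spec h2 t _ a m ih ss hi g2 g1 hs
      intro l hl j hj
      exact g3 l hl j hj (full_spec _ _ hf l (by rw [steps_length, g2]; exact hl) j hj)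
  intro l hl j hj
  exact KK_nil hN (key N l hl j hj)

/-- Evaluation of products with the table. -/
theorem eval_mul (h2 : (2 : R) = 0) (t : Tb) (val a : Nat → R)
    (H : ∀ l < t.T.length, ∀ j < t.n, dl t val a l j = 0) {v l : Nat} (hv : v < 2 ^ t.n)
    (hl : l < t.T.length) : sb t.n val v * a l = sb t.n val (t.mul v l) := by
  rw [mul_spec h2 t val a hv l]
  have : sb t.n (dl t val a l) v = 0 := by
    rw [sb_congr _ _ (fun _ => 0) _ (fun j hj => H l hl j hj)]
    simp [sb]
  rw [this, add_zero]

end Pool.Agent.L3E.RT
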