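import Pool.Agent.L3E.RT.Eval
import Pool.Agent.L3E.RT.ChkA

set_option autoImplicit false
set_option maxRecDepth 100000
set_option linter.unusedSimpArgs false

/-!
# L3E: (I1), (H0), (I4) from the table of the algebra generated by `x, y` in `D` and a good letter
(helper61)
-/

namespace Pool.Agent.L3E.RT.A

open scoped commutatorElement
open CLB_ CLC_

/-- A product `g P b`. -/
def term (s : List Nat × Nat × Nat × List Nat) : List (Bool × List Nat) :=
  (false, s.1) :: (true, [s.2.1]) :: (true, [s.2.2.1]) :: (true, [s.2.1]) ::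
    s.2.2.2.map fun l => (true, [l])

/-- The decomposition of `C E C E`. -/
def lw : List (List Nat × Nat × Nat × List Nat) :=
  [([], 0, 1, []), ([], 0, 1, [2, 0, 1]), ([], 0, 1, [2, 1, 0, 1]), ([], 1, 0, []),
   ([], 1, 0, [2, 1, 0]), ([], 1, 0, [2, 0, 1, 0]), ([2], 0, 1, []), ([2], 0, 1, [2, 0, 1]),
   ([2], 0, 1, [2, 1, 0, 1]), ([2], 1, 0, []), ([2], 1, 0, [2, 1, 0]), ([2], 1, 0, [2, 0, 1, 0]),
   ([0, 2], 1, 0, []), ([1, 2], 0, 1, []), ([2, 0, 2], 1, 0, []), ([2, 1, 2], 0, 1, [])]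

/-- The decomposition of `E C E C`. -/
def lws : List (List Nat × Nat × Nat × List Nat) :=
  [([], 0, 1, [2, 1, 2]), ([], 0, 1, [2, 1, 0, 1, 2]), ([], 1, 0, [2, 0, 2]),
   ([], 1, 0, [2, 0, 1, 0, 2]), ([2], 0, 1, [2]), ([0, 2], 0, 1, [2]), ([1, 2], 0, 1, [2]),
   ([1, 0, 2], 0, 1, [2]), ([2, 1, 2], 1, 0, [2]), ([0, 2, 1, 2], 1, 0, [2])]

/-- The commutator. -/
def fe : Bool × List Nat := (true, [0, 1, 0, 1])

/-- The good letter. -/
def fc : Bool × List Nat := (true, [2])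

theorem z1 : tb.zero [[fe, fc, fe, fc, fe]] = true := by decide +kernel

theorem z2 : tb.zero [[fc, fe, fc, (true, [0]), (true, [1]), (true, [0])]] = true := by
  decide +kernel

theorem z3 : tb.zero ([fc, fe, fc, fe] :: lw.map term) = true := by decide +kernel

theorem z4 : tb.zero ([fe, fc, fe, fc] :: lws.map term) = true := by decide +kernel

section
variable {G R : Type} [Group G] [Ring R] {D : Set G} {ρ : G →* R}

/-- The letters. -/
def xs (x y c : G) (l : Nat) : G := if l = 0 then x else if l = 1 then y else c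

/-- The hats of the letters. -/
def ah (ρ : G →* R) (x y c : G) (l : Nat) : R := ρ (xs x y c l) - 1

theorem lt {x y c : G} (hD : DSet D) (hR : RD D ρ) (hx : x ∈ D) (hy : y ∈ D) (hc : Gd D ρ c) :
    Lt D ρ (xs x y c) (fun l => Nat.blt l 2) 3 := by
  constructor
  · intro l _
    unfold xs
    split_ifs
    · exact gdD hD hR hx
    · exact gdD hD hR hy
    · exact hc
  · intro l _ hd
    rw [Nat.blt_eq] at hd
    unfold xs
    split_ifs with h1 h2
    · exact hx
    · exact hy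
    · omega

theorem main {x y c : G} (hD : DSet D) (hS : LawS D) (hR : RD D ρ) (hx : x ∈ D) (hy : y ∈ D)
    (hc : Gd D ρ c) : ∀ l < tb.T.length, ∀ j < tb.n,
      dl tb (vals 1 (ah ρ x y c) words) (ah ρ x y c) l j = 0 :=
  exactG hR hD hS (lt hD hR hx hy hc) tb 1 words ds ss chk okk

theorem v0 (a : Nat → R) : vals 1 a words 0 = 1 := by
  simp [vals, words]

theorem gE {x y c : G} (hD : DSet D) (hR : RD D ρ) (hx : x ∈ D) (hy : y ∈ D) (hc : Gd D ρ c) :
    gw (ah ρ x y c) [0, 1, 0, 1] = ρ ⁅x, y⁆ := by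
  have := ew_eq hR.two hR hD (lt hD hR hx hy hc) 0 1 [] (by simp) (by simpa [xs] using hx)
    (by simpa [xs] using hy)
  exact this.trans (by simp [cj, xs])

theorem g1 {x y c : G} (l : Nat) : gw (ah ρ x y c) [l] - 1 = ρ (xs x y c l) - 1 := by
  simp [gw, ah]

theorem i1 : Stmt_I1 := by
  intro G _ D R _ ρ _ _ hD hS hR c hc x hx y hy
  have h := zero_spec hR.two tb _ _ (main hD hS hR hx hy hc) _ z1
  simpa only [List.map_cons, List.map_nil, List.sum_cons, List.sum_nil, add_zero, v0, one_mul, fv,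
    fe, fc, gE hD hR hx hy hc, g1, xs, if_pos, mul_one, ← mul_assoc, if_true, OfNat.ofNat_ne_zero,
    OfNat.ofNat_ne_one, if_false] using h

theorem h0 : Stmt_H0 := by
  intro G _ D R _ ρ _ _ hD hS hR c hc x hx y hy
  have h := zero_spec hR.two tb _ _ (main hD hS hR hx hy hc) _ z2
  simpa only [List.map_cons, List.map_nil, List.sum_cons, List.sum_nil, add_zero, v0, one_mul, fv,
    fe, fc, gE hD hR hx hy hc, g1, xs, if_pos, mul_one, ← mul_assoc, if_true, OfNat.ofNat_ne_zero,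
    OfNat.ofNat_ne_one, if_false, one_ne_zero] using h

/-- Membership of the terms. -/
theorem tm (x y c : G) (N : AddSubgroup R) (nx : ∀ n ∈ N, ρ x * n ∈ N) (ny : ∀ n ∈ N, ρ y * n ∈ N)
    (nc : ∀ n ∈ N, ρ c * n ∈ N) (nr : ∀ n ∈ N, ∀ r : R, n * r ∈ N)
    (h1 : (ρ x - 1) * (ρ y - 1) * (ρ x - 1) ∈ N) (h3 : (ρ y - 1) * (ρ x - 1) * (ρ y - 1) ∈ N)
    (s : List Nat × Nat × Nat × List Nat)
    (hs : (s.2.1 = 0 ∧ s.2.2.1 = 1) ∨ (s.2.1 = 1 ∧ s.2.2.1 = 0)) :
    fv (ah ρ x y c) (term s) ∈ N := by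
  obtain ⟨g, p, q, b⟩ := s
  have left : ∀ g : List Nat, ∀ n ∈ N, gw (ah ρ x y c) g * n ∈ N := by
    intro g
    induction g with
    | nil => intro n hn; simpa [gw] using hn
    | cons l g ih =>
      intro n hn
      rw [gw_cons, mul_assoc, ah, add_sub_cancel]
      unfold xs
      split_ifs
      · exact nx _ (ih n hn)
      · exact ny _ (ih n hn)
      · exact nc _ (ih n hn)
  have hP : (ρ (xs x y c p) - 1) * (ρ (xs x y c q) - 1) * (ρ (xs x y c p) - 1) ∈ N := by
    rcases hs with ⟨h, h'⟩ | ⟨h, h'⟩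
    · simp only at h h'
      subst h; subst h'
      simpa [xs] using h1
    · simp only at h h'
      subst h; subst h'
      simpa [xs] using h3
  simp only [term, fv, g1]
  refine left g _ ?_
  rw [← mul_assoc, ← mul_assoc]
  exact nr _ hP _

theorem sm (x y c : G) (N : AddSubgroup R) (nx : ∀ n ∈ N, ρ x * n ∈ N) (ny : ∀ n ∈ N, ρ y * n ∈ N)
    (nc : ∀ n ∈ N, ρ c * n ∈ N) (nr : ∀ n ∈ N, ∀ r : R, n * r ∈ N)
    (h1 : (ρ x - 1) * (ρ y - 1) * (ρ x - 1) ∈ N) (h3 : (ρ y - 1) * (ρ x - 1) * (ρ y - 1) ∈ N) :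
    ∀ L : List (List Nat × Nat × Nat × List Nat),
    (∀ s ∈ L, (s.2.1 = 0 ∧ s.2.2.1 = 1) ∨ (s.2.1 = 1 ∧ s.2.2.1 = 0)) →
    ((L.map term).map fun f => (1 : R) * fv (ah ρ x y c) f).sum ∈ N := by
  intro L
  induction L with
  | nil => intro _; simp [zero_mem]
  | cons s L ih =>
    intro hs
    rw [List.map_cons, List.map_cons, List.sum_cons, one_mul]
    exact add_mem (tm x y c N nx ny nc nr h1 h3 s (hs s (by simp)))
      (ih fun s' hs' => hs s' (List.mem_cons_of_mem _ hs'))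

theorem i4 : Stmt_I4 := by
  intro G _ D R _ ρ _ _ hD hS hR c hc x hx y hy N nx ny nc nr h1 h3
  have k1 := zero_spec hR.two tb _ _ (main hD hS hR hx hy hc) _ z3
  have k2 := zero_spec hR.two tb _ _ (main hD hS hR hx hy hc) _ z4
  have m1 := sm x y c N nx ny nc nr h1 h3 lw (by simp [lw])
  have m2 := sm x y c N nx ny nc nr h1 h3 lws (by simp [lws])
  rw [List.map_cons, List.sum_cons] at k1 k2
  simp only [v0] at k1 k2
  have e1 := eq_neg_of_add_eq_zero_left k1
  have e2 := eq_neg_of_add_eq_zero_left k2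
  have n1 := neg_mem m1
  have n2 := neg_mem m2
  rw [← e1] at n1
  rw [← e2] at n2
  constructor
  · simpa only [v0, one_mul, fv, fe, fc, gE hD hR hx hy hc, g1, xs, if_pos, mul_one, ← mul_assoc,
      if_true, OfNat.ofNat_ne_zero, OfNat.ofNat_ne_one, if_false] using n1
  · simpa only [v0, one_mul, fv, fe, fc, gE hD hR hx hy hc, g1, xs, if_pos, mul_one, ← mul_assoc,
      if_true, OfNat.ofNat_ne_zero, OfNat.ofNat_ne_one, if_false] using n2

end

end Pool.Agent.L3E.RT.A
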