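import Pool.Agent.L3E.RT.TabA
import Pool.Agent.L3E.RT.ChkB

set_option autoImplicit false
set_option maxRecDepth 100000
set_option linter.unusedSimpArgs false

/-!
# L3E: (alpha) from the table of the algebra generated by `x, y, u` in `D` (helper61)
-/

namespace Pool.Agent.L3E.RT.B

open scoped commutatorElement
open CLB_ CLC_

/-- The word of `z`. -/
def zw : List Nat := cw 0 [1, 2, 0, 2]

theorem z1 : tb.zero [[(false, [0, 1, 0, 1])],
    [(false, zw), (false, [1]), (false, zw), (false, [1])]] = true := by decide +kernel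

theorem z2 : tb.zero [[(true, [0, 1, 0, 1]), (true, [2]), (true, [0]), (true, [1]), (true, [0])],
    [(true, zw), (true, [1]), (true, zw)],
    [(true, [0]), (true, [1]), (true, [0])],
    [(true, [0]), (true, [1]), (true, [0]), (true, [2]), (true, [0]), (true, [1])],
    [(true, [0]), (true, [1]), (true, [0]), (true, [2]), (true, [1]), (true, [0])]] = true := by
  decide +kernel

section
variable {G R : Type} [Group G] [Ring R] {D : Set G} {ρ : G →* R}

/-- The letters. -/
def xs (x y u : G) (l : Nat) : G := if l = 0 then x else if l = 1 then y else u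

theorem lt {x y u : G} (hD : DSet D) (hR : RD D ρ) (hx : x ∈ D) (hy : y ∈ D) (hu : u ∈ D) :
    Lt D ρ (xs x y u) (fun l => Nat.blt l 3) 3 := by
  have h : ∀ l, xs x y u l ∈ D := by
    intro l
    unfold xs
    split_ifs
    · exact hx
    · exact hy
    · exact hu
  exact ⟨fun l _ => gdD hD hR (h l), fun l _ _ => h l⟩

/-- The hats of the letters. -/
def ah (ρ : G →* R) (x y u : G) (l : Nat) : R := ρ (xs x y u l) - 1

theorem main {x y u : G} (hD : DSet D) (hS : LawS D) (hR : RD D ρ) (hx : x ∈ D) (hy : y ∈ D)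
    (hu : u ∈ D) : ∀ l < tb.T.length, ∀ j < tb.n,
      dl tb (vals 1 (ah ρ x y u) words) (ah ρ x y u) l j = 0 :=
  exactG hR hD hS (lt hD hR hx hy hu) tb 1 words ds ss chk okk

theorem al : Stmt_Al := by
  intro G _ D R _ ρ hG hgen hD hS hR c hc x hx y hy u hu
  have h2 := hR.two
  have hl := lt hD hR hx hy hu
  have v0 : vals 1 (ah ρ x y u) words 0 = 1 := by simp [vals, words]
  have g0 : gw (ah ρ x y u) [0] = ρ x := by simp [gw, ah, xs]
  have g1 : gw (ah ρ x y u) [1] = ρ y := by simp [gw, ah, xs]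
  have g2 : gw (ah ρ x y u) [2] = ρ u := by simp [gw, ah, xs]
  have gE : gw (ah ρ x y u) [0, 1, 0, 1] = ρ ⁅x, y⁆ := by
    have := ew_eq h2 hR hD hl 0 1 [] (by simp) (by simpa [xs] using hx) (by simpa [xs] using hy)
    exact this.trans (by simp [cj, xs])
  obtain ⟨z, hzD, gz⟩ : ∃ z ∈ D, gw (ah ρ x y u) zw = ρ z :=
    ⟨cj (xs x y u) 0 [1, 2, 0, 2], hD.conj _ (by simpa [xs] using hx) _,
      gw_cw h2 hl 0 [1, 2, 0, 2] (by simp)⟩
  have e1 := zero_spec h2 tb _ _ (main hD hS hR hx hy hu) _ z1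
  have e2 := zero_spec h2 tb _ _ (main hD hS hR hx hy hu) _ z2
  simp only [List.map_cons, List.map_nil, List.sum_cons, List.sum_nil, add_zero, v0, one_mul, fv,
    gE, gz, g0, g1, g2, mul_one, ← mul_assoc] at e1 e2
  have hE : ρ ⁅z, y⁆ = ρ ⁅x, y⁆ := by
    rw [commutatorElement_def]
    simp only [map_mul, BCS_.rho_inv h2 (gdD hD hR hzD).sq, BCS_.rho_inv h2 (gdD hD hR hy).sq]
    rw [eq_neg_of_add_eq_zero_left e1, ng h2]
  have k1 := A.h0 G D R ρ hG hgen hD hS hR c hc x hx y hy
  have k2 := A.h0 G D R ρ hG hgen hD hS hR c hc z hzD y hy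
  rw [hE] at k2
  have e3 := eq_neg_of_add_eq_zero_left e2
  rw [ng h2] at e3
  simp only [mul_assoc] at e3 k1 k2 ⊢
  rw [e3]
  simp only [mul_add, ← mul_assoc] at k1 k2 ⊢
  simp only [k1, k2, zero_mul, add_zero]

end

end Pool.Agent.L3E.RT.B
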